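import Pool.Agent.Work.MP_db9399_all.Interface

/-!
# MP_db9399, OCB4: abstract slots (helper75)

`S` = slots, `L s` = candidates of the slot `s`, `R s u s' u'` = the choices `u` for `s` and `u'` for
`s'` are in conflict. Weights `w q s u` with small average: their sums over the chosen candidates are
small up to a factor `log d ^ 2`.
-/

set_option autoImplicit false

namespace Pool.Agent.Work.MP_db9399_slt

open Finset Classical

universe u

/-- **SLOTS.** Every slot gets a random list of `K log d` candidates (symmetric local lemma: all lists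
have few conflicts and all tests hold for all lists together), then one candidate of every list
(local lemma with `1 / m ^ 2`). -/
def Stmt_SLOTS : Prop :=
  ∀ A : ℝ, 1 ≤ A → ∃ d0 : ℕ,
    ∀ {V S Q : Type u} [Fintype V] [Fintype S] [Fintype Q] (d : ℕ) (L : S → Finset V)
      (R : S → V → S → V → Prop) (w : Q → S → V → ℝ) (ω μ : Q → ℝ), d0 ≤ d →
      (∀ s, (L s).Nonempty) → (∀ s, ((L s).card : ℝ) ≤ (d : ℝ) ^ A) →
      (∀ s u s' u', R s u s' u' → R s' u' s u) →
      (∀ s, ((univ.filter fun s' => ∃ u ∈ L s, ∃ u' ∈ L s', R s u s' u').card : ℝ) ≤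
        (d : ℝ) ^ A) →
      (∀ s, ∀ u ∈ L s, ∑ s' with s' ≠ s,
        (((L s').filter fun u' => R s u s' u').card : ℝ) / (L s').card ≤ 1 / 128) →
      (∀ q, 0 < ω q) → (∀ q s, ∀ u ∈ L s, 0 ≤ w q s u ∧ w q s u ≤ ω q) →
      (∀ q, ∑ s, (∑ u ∈ L s, w q s u) / (L s).card ≤ μ q) →
      (∀ q, ((univ.filter fun s => ∃ u ∈ L s, w q s u ≠ 0).card : ℝ) ≤ (d : ℝ) ^ A) →
      (∀ s, ((univ.filter fun q => ∃ u ∈ L s, w q s u ≠ 0).card : ℝ) ≤ (d : ℝ) ^ A) →
      ∃ f : S → V, (∀ s, f s ∈ L s) ∧ (∀ s s', s ≠ s' → ¬ R s (f s) s' (f s')) ∧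
        ∀ q, ∑ s, w q s (f s) ≤ Real.log d ^ 2 * (μ q + ω q)

end Pool.Agent.Work.MP_db9399_slt
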