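import Pool.Agent.Work.MP_db9399_slt_helper75.Defs
import Pool.Agent.Work.MP_db9399_ow_helper21.LSTL

/-!
# MP_db9399, SLOTS: one candidate from every list (helper75)
-/

set_option autoImplicit false
set_option linter.unusedSectionVars false

namespace Pool.Agent.Work.MP_db9399_slt.helper75

open Finset Classical
open Pool.Agent.Work.MP_db9399_all (pr DepOnI PackI Stmt_LLLI)
open Pool.Agent.Work.MP_db9399_en (ex ex_mul ex_sum)

universe u

/-- two coordinates, general relation -/
theorem pr_rel {J : Type u} [Fintype J] {M : ℕ} (hM : 0 < M) (r : Fin M → Fin M → Prop) (y z : J)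
    (hyz : y ≠ z) : pr (fun f : J → Fin M => r (f y) (f z)) =
      ((univ.filter fun p : Fin M × Fin M => r p.1 p.2).card : ℝ) / (M : ℝ) ^ 2 := by
  have h0 : pr (fun f : J → Fin M => r (f y) (f z)) =
      ex (fun f : J → Fin M => if r (f y) (f z) then (1 : ℝ) else 0) := by
    unfold pr ex
    rw [Finset.sum_boole]
  have h1 : (fun f : J → Fin M => if r (f y) (f z) then (1 : ℝ) else 0) =
      fun f => ∑ p ∈ univ.filter (fun p : Fin M × Fin M => r p.1 p.2),
        (if f y = p.1 then (1 : ℝ) else 0) * (if f z = p.2 then (1 : ℝ) else 0) := by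
    funext f
    have h2 : ∀ p : Fin M × Fin M, (if f y = p.1 then (1 : ℝ) else 0) *
        (if f z = p.2 then (1 : ℝ) else 0) = if p = (f y, f z) then 1 else 0 := by
      intro p
      by_cases h3 : f y = p.1
      · by_cases h4 : f z = p.2
        · rw [if_pos h3, if_pos h4, if_pos (Prod.ext h3.symm h4.symm), one_mul]
        · rw [if_neg h4, mul_zero, if_neg]
          intro h5
          exact h4 (by rw [h5])
      · rw [if_neg h3, zero_mul, if_neg]
        intro h5
        exact h3 (by rw [h5])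
    simp_rw [h2]
    rw [Finset.sum_ite_eq']
    simp only [mem_filter, mem_univ, true_and]
  rw [h0, h1, ex_sum]
  have h6 : ∀ p : Fin M × Fin M, ex (fun f : J → Fin M => (if f y = p.1 then (1 : ℝ) else 0) *
      (if f z = p.2 then (1 : ℝ) else 0)) = 1 / (M : ℝ) ^ 2 := by
    intro p
    rw [ex_mul hM {y} (fun f : J → Fin M => if f y = p.1 then (1 : ℝ) else 0)
      (fun f : J → Fin M => if f z = p.2 then (1 : ℝ) else 0),
      MP_db9399_ow.helper21.ex_coord hM, MP_db9399_ow.helper21.ex_coord hM]
    · ring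
    · intro f f' hf
      simp only [hf y (mem_singleton_self y)]
    · intro f f' hf
      have : f z = f' z := hf z (by
        rw [mem_compl, mem_singleton]
        exact fun h => hyz h.symm)
      simp only [this]
  simp_rw [h6]
  rw [Finset.sum_const, nsmul_eq_mul, mul_one_div]

section lst

variable {S : Type u} [Fintype S] {m : ℕ} (K : S → Fin m → S → Fin m → Prop)

/-- number of the conflicts between the lists of `s` and `s'` -/
noncomputable def cf (s s' : S) : ℕ :=
  (univ.filter fun p : Fin m × Fin m => K s p.1 s' p.2).card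

theorem cf_symm (hK : ∀ s i s' j, K s i s' j → K s' j s i) (s s' : S) : cf K s s' = cf K s' s := by
  have h : ∀ s s', cf K s s' ≤ cf K s' s := by
    intro s s'
    unfold cf
    refine card_le_card_of_injOn (fun p => (p.2, p.1)) ?_ ?_
    · intro p hp
      rw [mem_coe, mem_filter] at hp ⊢
      exact ⟨mem_univ _, hK _ _ _ _ hp.2⟩
    · rintro ⟨a, b⟩ _ ⟨a', b'⟩ _ h
      simp only [Prod.mk.injEq] at h ⊢
      exact ⟨h.2, h.1⟩
  exact le_antisymm (h s s') (h s' s)

theorem cf_sum {k : ℕ} (s : S)
    (h : ∀ i, (univ.filter fun y : S × Fin m => y.1 ≠ s ∧ K s i y.1 y.2).card ≤ k) :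
    ∑ s' with s' ≠ s, cf K s s' ≤ m * k := by
  have h1 : ∀ s', cf K s s' = ∑ i : Fin m, (univ.filter fun j : Fin m => K s i s' j).card := by
    intro s'
    unfold cf
    rw [Finset.card_filter, Fintype.sum_prod_type]
    exact sum_congr rfl fun i _ => (Finset.card_filter _ _).symm
  simp_rw [h1]
  rw [Finset.sum_comm]
  calc ∑ i : Fin m, ∑ s' with s' ≠ s, (univ.filter fun j : Fin m => K s i s' j).card
      ≤ ∑ _i : Fin m, k := by
        refine Finset.sum_le_sum fun i _ => le_trans (le_of_eq ?_) (h i)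
        rw [Finset.card_filter, Fintype.sum_prod_type, Finset.sum_filter]
        refine sum_congr rfl fun s' _ => ?_
        by_cases hs : s' ≠ s
        · rw [if_pos hs, Finset.card_filter]
          refine sum_congr rfl fun j _ => ?_
          by_cases hj : K s i s' j
          · rw [if_pos hj, if_pos ⟨hs, hj⟩]
          · rw [if_neg hj, if_neg fun h => hj h.2]
        · rw [if_neg hs]
          symm
          refine sum_eq_zero fun j _ => if_neg fun h => hs h.1
    _ = m * k := by rw [Finset.sum_const, card_univ, Fintype.card_fin, smul_eq_mul]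

/-- **Lists.** -/
theorem lst (hL : Stmt_LLLI.{u}) {k : ℕ} (hm : 0 < m) (hk : 32 * k ≤ m)
    (hK : ∀ s i s' j, K s i s' j → K s' j s i)
    (h : ∀ s i, (univ.filter fun y : S × Fin m => y.1 ≠ s ∧ K s i y.1 y.2).card ≤ k) :
    ∃ g : S → Fin m, ∀ s s', s ≠ s' → ¬ K s (g s) s' (g s') := by
  have hm' : (0 : ℝ) < m := by exact_mod_cast hm
  obtain ⟨W, hW⟩ : ∃ W : S × S → ℝ, W = fun r => if r.1 ≠ r.2 then
      Real.exp 1 * ((cf K r.1 r.2 : ℝ) / (m : ℝ) ^ 2) else 0 := ⟨_, rfl⟩
  have hW0 : ∀ r, 0 ≤ W r := by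
    intro r
    rw [hW]
    dsimp only
    split_ifs
    · positivity
    · exact le_rfl
  have hmain := hL S m (S × S) (1 / 4) (fun r => if r.1 ≠ r.2 then {r.1, r.2} else ∅) W
    (fun r f => r.1 ≠ r.2 → ¬ K r.1 (f r.1) r.2 (f r.2)) hm (by norm_num) le_rfl ?_ ?_
  · obtain ⟨f, hf⟩ := hmain
    exact ⟨f, fun s s' hs => hf (s, s') hs⟩
  · intro r
    by_cases hr : r.1 ≠ r.2
    · refine ⟨ULift.{u} Unit, inferInstance, fun _ => {r.1, r.2},
        fun _ f => K r.1 (f r.1) r.2 (f r.2), ?_, ?_, ?_, ?_, ?_⟩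
      · intro _ f f' hf
        simp only [hf r.1 (mem_insert_self _ _), hf r.2 (mem_insert_of_mem (mem_singleton_self _))]
      · intro _
        exact ⟨r.1, mem_insert_self _ _⟩
      · intro _
        dsimp only
        rw [if_pos hr]
      · rw [Fintype.sum_subsingleton _ (ULift.up ())]
        rw [card_pair hr, pr_rel hm (fun a b => K r.1 a r.2 b) r.1 r.2 hr, hW]
        dsimp only
        rw [if_pos hr]
        refine le_of_eq ?_
        unfold cf
        rw [mul_comm]
        congr 2
        norm_num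
      · intro f hf _
        exact hf ⟨()⟩
    · refine ⟨ULift.{u} Empty, inferInstance, fun _ => ∅, fun _ _ => False, ?_, ?_, ?_, ?_, ?_⟩
      · rintro ⟨⟨⟩⟩
      · rintro ⟨⟨⟩⟩
      · rintro ⟨⟨⟩⟩
      · rw [Finset.univ_eq_empty, sum_empty]
        exact hW0 r
      · intro f _ hr'
        exact absurd hr' hr
  · intro y
    have hc := cf_sum K y (h y)
    have h2 : ∑ r ∈ univ.filter (fun r : S × S => y ∈ (if r.1 ≠ r.2 then ({r.1, r.2} : Finset S)
        else ∅)), W r ≤ ∑ s' with s' ≠ y, W (y, s') + ∑ s' with s' ≠ y, W (s', y) := by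
      have e1 : ∑ s' with s' ≠ y, W (y, s') =
          ∑ r ∈ (univ.filter fun s' : S => s' ≠ y).image (fun s' => (y, s')), W r := by
        rw [sum_image]
        intro a _ b _ hab
        exact (Prod.mk.inj hab).2
      have e2 : ∑ s' with s' ≠ y, W (s', y) =
          ∑ r ∈ (univ.filter fun s' : S => s' ≠ y).image (fun s' => (s', y)), W r := by
        rw [sum_image]
        intro a _ b _ hab
        exact (Prod.mk.inj hab).1
      rw [e1, e2]
      rw [← sum_union]
      · refine sum_le_sum_of_subset_of_nonneg ?_ fun r _ _ => hW0 r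
        rintro ⟨a, b⟩ hr
        rw [mem_filter] at hr
        have hr2 := hr.2
        simp only at hr2
        split_ifs at hr2 with hab
        · rw [mem_insert, mem_singleton] at hr2
          rw [mem_union, mem_image, mem_image]
          rcases hr2 with rfl | rfl
          · exact Or.inl ⟨b, mem_filter.2 ⟨mem_univ _, fun h => hab h.symm⟩, rfl⟩
          · exact Or.inr ⟨a, mem_filter.2 ⟨mem_univ _, hab⟩, rfl⟩
        · exact absurd hr2 (notMem_empty _)
      · rw [Finset.disjoint_left]
        rintro ⟨a, b⟩ hr hr'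
        rw [mem_image] at hr hr'
        obtain ⟨c, hc1, hc2⟩ := hr
        obtain ⟨c', hc1', hc2'⟩ := hr'
        have h3 := Prod.mk.inj hc2
        have h4 := Prod.mk.inj hc2'
        rw [mem_filter] at hc1
        exact hc1.2 (by rw [h3.2, ← h4.2])
    refine h2.trans ?_
    have h3 : ∀ s' ∈ univ.filter (fun s' : S => s' ≠ y), W (y, s') =
        Real.exp 1 / (m : ℝ) ^ 2 * cf K y s' := by
      intro s' hs'
      rw [mem_filter] at hs'
      rw [hW]
      dsimp only
      rw [if_pos fun h => hs'.2 h.symm]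
      ring
    have h4 : ∀ s' ∈ univ.filter (fun s' : S => s' ≠ y), W (s', y) =
        Real.exp 1 / (m : ℝ) ^ 2 * cf K y s' := by
      intro s' hs'
      rw [mem_filter] at hs'
      rw [hW]
      dsimp only
      rw [if_pos hs'.2, cf_symm K hK s' y]
      ring
    rw [sum_congr rfl h3, sum_congr rfl h4, ← mul_sum]
    have h5 : (∑ s' with s' ≠ y, (cf K y s' : ℝ)) ≤ m * k := by exact_mod_cast hc
    have h6 : 32 * (k : ℝ) ≤ m := by exact_mod_cast hk
    have h7 : Real.exp 1 ≤ 3 := by
      have := Real.exp_one_lt_d9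
      linarith
    have h8 : Real.exp 1 / (m : ℝ) ^ 2 * (∑ s' with s' ≠ y, (cf K y s' : ℝ)) ≤
        (3 : ℝ) / (m : ℝ) ^ 2 * ((m : ℝ) * (k : ℝ)) :=
      mul_le_mul (div_le_div_of_nonneg_right h7 (by positivity)) h5
        (sum_nonneg fun _ _ => Nat.cast_nonneg _) (by positivity)
    have h9 : (3 : ℝ) / (m : ℝ) ^ 2 * ((m : ℝ) * (k : ℝ)) = 3 * (k : ℝ) / (m : ℝ) := by
      field_simp
    have h10 : 3 * (k : ℝ) / (m : ℝ) ≤ 1 / 8 := by
      rw [div_le_iff₀ hm']
      linarith
    linarith

end lst

end Pool.Agent.Work.MP_db9399_slt.helper75
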