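import Pool.Agent.Work.MP_db9399_slt_helper75.Lst
import Pool.Agent.Work.MP_db9399_ow_helper21.SYM
import Pool.Agent.Work.MP_db9399_ow_helper20.LOCP
import Pool.Agent.Work.MP_db9399_ow_helper20.DEV
import Pool.Agent.Work.MP_db9399_all_helper6.LLLI

/-!
# MP_db9399, SLOTS (helper75)
-/

set_option autoImplicit false
set_option linter.unusedSectionVars false

namespace Pool.Agent.Work.MP_db9399_slt.helper75

open Finset Classical
open Pool.Agent.Work.MP_db9399_all (pr DepOnI PackI Stmt_LLLI)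
open Pool.Agent.Work.MP_db9399_en (ex ex_mul ex_sum chern_up)
open Pool.Agent.Work.MP_db9399_ow (Stmt_SYM)
open Pool.Agent.Work.MP_db9399_ow.helper20 (pr_inst pr_mono' ex_coord)
open Pool.Agent.Work.MP_db9399_slt

universe u

/-- a uniform element of `L` from a uniform element of `Fin M` -/
theorem pick_exists {V : Type u} (L : Finset V) (M : ℕ) (hL : L.Nonempty) (hLM : L.card ∣ M)
    (hM : 0 < M) : ∃ p : Fin M → V, (∀ x, p x ∈ L) ∧
      ∀ F : V → ℝ, (∑ x, F (p x)) / M = (∑ u ∈ L, F u) / L.card := by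
  obtain ⟨k, rfl⟩ := hLM
  have hk : 0 < k := Nat.pos_of_mul_pos_left hM
  have hc : (0 : ℝ) < L.card := by exact_mod_cast card_pos.2 hL
  have hk' : (0 : ℝ) < k := by exact_mod_cast hk
  refine ⟨fun x => (L.equivFin.symm (finProdFinEquiv.symm x).1).1, fun x => Subtype.prop _,
    fun F => ?_⟩
  have h1 : ∑ x : Fin (L.card * k), F (L.equivFin.symm (finProdFinEquiv.symm x).1).1 =
      ∑ y : Fin L.card × Fin k, F (L.equivFin.symm y.1).1 :=
    Equiv.sum_comp finProdFinEquiv.symm (fun y : Fin L.card × Fin k => F (L.equivFin.symm y.1).1)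
  have h2 : ∑ a : Fin L.card, F (L.equivFin.symm a).1 = ∑ u ∈ L, F u := by
    rw [← Finset.sum_coe_sort L F]
    exact Equiv.sum_comp L.equivFin.symm (fun u => F u.1)
  rw [h1, Fintype.sum_prod_type]
  simp only [sum_const, card_univ, Fintype.card_fin, nsmul_eq_mul]
  rw [← mul_sum, h2]
  push_cast
  field_simp

section one

variable {V S : Type u} [Fintype V] [Fintype S] {m M : ℕ}

/-- sum of a weight over all lists -/
theorem tailW (hM : 0 < M) (L : S → Finset V) (p : S → Fin M → V)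
    (hp : ∀ s x, p s x ∈ L s)
    (havg : ∀ s, ∀ F : V → ℝ, (∑ x, F (p s x)) / M = (∑ u ∈ L s, F u) / (L s).card)
    (w : S → V → ℝ) (T : Finset S) {ω μ m0 : ℝ} (hω : 0 < ω)
    (hw : ∀ s, ∀ u ∈ L s, 0 ≤ w s u ∧ w s u ≤ ω)
    (hμ : ∑ s ∈ T, (∑ u ∈ L s, w s u) / (L s).card ≤ μ) (hm0 : 0 < m0) (hm : m * μ ≤ m0)
    {i : Fintype (S × Fin m → Fin M)} :
    @pr _ i (fun f : S × Fin m → Fin M => m0 + m0 ≤
      ∑ y ∈ T ×ˢ (univ : Finset (Fin m)), w y.1 (p y.1 (f y))) ≤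
      Real.exp (-(m0 / (4 * ω))) := by
  have h1 := chern_up hM (T ×ˢ (univ : Finset (Fin m))) (fun y => {y})
    (fun y (f : S × Fin m → Fin M) => w y.1 (p y.1 (f y)))
    (fun y _ f f' hf => by
      have : f y = f' y := hf y (mem_singleton_self _)
      show w y.1 (p y.1 (f y)) = _
      rw [this])
    (fun y _ y' _ hne => by
      rw [disjoint_singleton]
      exact hne)
    (fun y _ f => (hw y.1 _ (hp _ _)).1)
    (B := ω) (fun y _ f => (hw y.1 _ (hp _ _)).2) hω (m := m0) (s := m0) hm0 ?_ hm0.le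
  · refine (pr_inst i _ _).trans_le (h1.trans (Real.exp_le_exp.2 (neg_le_neg (le_min ?_ ?_))))
    · rw [div_le_div_iff₀ (by positivity) (by positivity)]
      exact le_of_eq (by ring)
    · rw [div_le_div_iff₀ (by positivity) (by positivity)]
      nlinarith
  · have h2 : ∀ y ∈ T ×ˢ (univ : Finset (Fin m)),
        ex (fun f : S × Fin m → Fin M => w y.1 (p y.1 (f y))) =
          (∑ u ∈ L y.1, w y.1 u) / (L y.1).card := by
      intro y _
      rw [ex_coord hM y (fun a => w y.1 (p y.1 a)), havg]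
    rw [sum_congr rfl h2, sum_product]
    simp only [sum_const, card_univ, Fintype.card_fin, nsmul_eq_mul]
    rw [← mul_sum]
    exact (mul_le_mul_of_nonneg_left hμ (Nat.cast_nonneg _)).trans hm

end one

section events

variable {V S Q : Type u} [Fintype V] [Fintype S] [Fintype Q] {m M : ℕ}

/-- slots in conflict with `s` -/
noncomputable def Nn (L : S → Finset V) (R : S → V → S → V → Prop) (s : S) : Finset S :=
  univ.filter fun s' => s' ≠ s ∧ ∃ u ∈ L s, ∃ u' ∈ L s', R s u s' u'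

/-- slots seen by the test `q` -/
noncomputable def Tn (L : S → Finset V) (w : Q → S → V → ℝ) (q : Q) : Finset S :=
  univ.filter fun s => ∃ u ∈ L s, w q s u ≠ 0

/-- conflict weight of the candidate `u` of `s` -/
noncomputable def cw (R : S → V → S → V → Prop) (s : S) (u : V) (s' : S) (u' : V) : ℝ :=
  if R s u s' u' then 1 else 0

/-- scopes -/
noncomputable def QQ (L : S → Finset V) (R : S → V → S → V → Prop) (w : Q → S → V → ℝ) (m : ℕ) :
    (S × V) ⊕ Q → Finset (S × Fin m)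
  | Sum.inl z => if z.2 ∈ L z.1 then Nn L R z.1 ×ˢ univ else ∅
  | Sum.inr q => Tn L w q ×ˢ univ

/-- events -/
noncomputable def EE (L : S → Finset V) (R : S → V → S → V → Prop) (w : Q → S → V → ℝ)
    (p : S → Fin M → V) (m1 : ℝ) (m2 : Q → ℝ) :
    (S × V) ⊕ Q → (S × Fin m → Fin M) → Prop
  | Sum.inl z => fun f => z.2 ∈ L z.1 ∧ m1 + m1 ≤
      ∑ y ∈ Nn L R z.1 ×ˢ (univ : Finset (Fin m)), cw R z.1 z.2 y.1 (p y.1 (f y))
  | Sum.inr q => fun f => m2 q + m2 q ≤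
      ∑ y ∈ Tn L w q ×ˢ (univ : Finset (Fin m)), w q y.1 (p y.1 (f y))

theorem dep_EE (L : S → Finset V) (R : S → V → S → V → Prop) (w : Q → S → V → ℝ)
    (p : S → Fin M → V) (m1 : ℝ) (m2 : Q → ℝ) (k : (S × V) ⊕ Q) :
    DepOnI (QQ L R w m k) (EE (m := m) L R w p m1 m2 k) := by
  rcases k with z | q
  · intro f f' h
    show (z.2 ∈ L z.1 ∧ m1 + m1 ≤
      ∑ y ∈ Nn L R z.1 ×ˢ (univ : Finset (Fin m)), cw R z.1 z.2 y.1 (p y.1 (f y))) =
      (z.2 ∈ L z.1 ∧ m1 + m1 ≤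
      ∑ y ∈ Nn L R z.1 ×ˢ (univ : Finset (Fin m)), cw R z.1 z.2 y.1 (p y.1 (f' y)))
    by_cases hz : z.2 ∈ L z.1
    · have h1 : QQ L R w m (Sum.inl z) = Nn L R z.1 ×ˢ univ := by
        show (if z.2 ∈ L z.1 then Nn L R z.1 ×ˢ univ else ∅) = _
        rw [if_pos hz]
      rw [h1] at h
      have h2 : ∑ y ∈ Nn L R z.1 ×ˢ (univ : Finset (Fin m)), cw R z.1 z.2 y.1 (p y.1 (f y)) =
          ∑ y ∈ Nn L R z.1 ×ˢ (univ : Finset (Fin m)), cw R z.1 z.2 y.1 (p y.1 (f' y)) :=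
        sum_congr rfl fun y hy => by rw [h y hy]
      rw [h2]
    · simp only [hz, false_and]
  · intro f f' h
    show (m2 q + m2 q ≤ ∑ y ∈ Tn L w q ×ˢ (univ : Finset (Fin m)), w q y.1 (p y.1 (f y))) =
      (m2 q + m2 q ≤ ∑ y ∈ Tn L w q ×ˢ (univ : Finset (Fin m)), w q y.1 (p y.1 (f' y)))
    have h2 : ∑ y ∈ Tn L w q ×ˢ (univ : Finset (Fin m)), w q y.1 (p y.1 (f y)) =
        ∑ y ∈ Tn L w q ×ˢ (univ : Finset (Fin m)), w q y.1 (p y.1 (f' y)) :=
      sum_congr rfl fun y hy => by rw [h y hy]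
    rw [h2]

theorem pr_false {Ω : Type u} {i : Fintype Ω} (E : Ω → Prop) (h : ∀ ω, ¬ E ω) : @pr Ω i E = 0 := by
  unfold pr
  have : ∀ t : Finset Ω, (∀ ω ∈ t, E ω) → t.card = 0 := by
    intro t ht
    rw [Finset.card_eq_zero, Finset.eq_empty_iff_forall_notMem]
    intro ω hω
    exact h ω (ht ω hω)
  rw [this _ (fun ω hω => (Finset.mem_filter.mp hω).2)]
  simp

theorem size_QQ (L : S → Finset V) (R : S → V → S → V → Prop) (w : Q → S → V → ℝ) {D : ℝ}
    {d : ℕ} (hD : 0 ≤ D) (hmd : (m : ℝ) ≤ d)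
    (hRc : ∀ s, ((univ.filter fun s' => ∃ u ∈ L s, ∃ u' ∈ L s', R s u s' u').card : ℝ) ≤ D)
    (hwq : ∀ q, ((univ.filter fun s => ∃ u ∈ L s, w q s u ≠ 0).card : ℝ) ≤ D)
    (k : (S × V) ⊕ Q) : ((QQ L R w m k).card : ℝ) ≤ D * d := by
  rcases k with z | q
  · show ((if z.2 ∈ L z.1 then Nn L R z.1 ×ˢ (univ : Finset (Fin m)) else ∅).card : ℝ) ≤ _
    split_ifs with hz
    · rw [card_product, card_univ, Fintype.card_fin, Nat.cast_mul]
      refine mul_le_mul ((Nat.cast_le.2 (card_le_card ?_)).trans (hRc z.1)) hmd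
        (by positivity) hD
      intro s' hs'
      unfold Nn at hs'
      rw [mem_filter] at hs' ⊢
      exact ⟨mem_univ _, hs'.2.2⟩
    · rw [card_empty]
      push_cast
      positivity
  · show ((Tn L w q ×ˢ (univ : Finset (Fin m))).card : ℝ) ≤ _
    rw [card_product, card_univ, Fintype.card_fin, Nat.cast_mul]
    exact mul_le_mul (hwq q) hmd (by positivity) hD

theorem mul_QQ (L : S → Finset V) (R : S → V → S → V → Prop) (w : Q → S → V → ℝ) {D : ℝ}
    (hD : 0 ≤ D) (hRs : ∀ s u s' u', R s u s' u' → R s' u' s u)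
    (hLc : ∀ s, ((L s).card : ℝ) ≤ D)
    (hRc : ∀ s, ((univ.filter fun s' => ∃ u ∈ L s, ∃ u' ∈ L s', R s u s' u').card : ℝ) ≤ D)
    (hws : ∀ s, ((univ.filter fun q => ∃ u ∈ L s, w q s u ≠ 0).card : ℝ) ≤ D)
    (y : S × Fin m) {dec : DecidablePred fun k : (S × V) ⊕ Q => y ∈ QQ L R w m k} :
    ((@Finset.filter _ (fun k : (S × V) ⊕ Q => y ∈ QQ L R w m k) dec univ).card : ℝ) ≤
      D * D + D := by
  obtain ⟨s, j⟩ := y
  have h4 : (@Finset.filter _ (fun k : (S × V) ⊕ Q => (s, j) ∈ QQ L R w m k) dec univ) ⊆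
      ((univ.filter fun s' => ∃ u ∈ L s, ∃ u' ∈ L s', R s u s' u').biUnion fun s' =>
        (L s').image fun u => (s', u)).disjSum (univ.filter fun q => ∃ u ∈ L s, w q s u ≠ 0) := by
    intro k hk
    have hk2 := (mem_filter.1 hk).2
    rcases k with ⟨s', u⟩ | q
    · rw [inl_mem_disjSum, mem_biUnion]
      have hk' : (s, j) ∈ (if u ∈ L s' then Nn L R s' ×ˢ (univ : Finset (Fin m)) else ∅) := hk2
      split_ifs at hk' with hu
      · rw [mem_product] at hk'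
        have h5 : s ∈ Nn L R s' := hk'.1
        unfold Nn at h5
        rw [mem_filter] at h5
        obtain ⟨-, -, u1, hu1, u2, hu2, hR⟩ := h5
        exact ⟨s', mem_filter.2 ⟨mem_univ _, u2, hu2, u1, hu1, hRs _ _ _ _ hR⟩,
          mem_image.2 ⟨u, hu, rfl⟩⟩
      · exact absurd hk' (notMem_empty _)
    · rw [inr_mem_disjSum]
      have hk' : (s, j) ∈ Tn L w q ×ˢ (univ : Finset (Fin m)) := hk2
      rw [mem_product] at hk'
      have h5 : s ∈ Tn L w q := hk'.1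
      unfold Tn at h5
      rw [mem_filter] at h5
      exact mem_filter.2 ⟨mem_univ _, h5.2⟩
  have h5 := card_le_card h4
  rw [card_disjSum] at h5
  have h6 : (((univ.filter fun s' => ∃ u ∈ L s, ∃ u' ∈ L s', R s u s' u').biUnion fun s' =>
      (L s').image fun u => (s', u)).card : ℝ) ≤ D * D := by
    calc (((univ.filter fun s' => ∃ u ∈ L s, ∃ u' ∈ L s', R s u s' u').biUnion fun s' =>
        (L s').image fun u => (s', u)).card : ℝ)
        ≤ ∑ s' ∈ univ.filter (fun s' => ∃ u ∈ L s, ∃ u' ∈ L s', R s u s' u'),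
          (((L s').image fun u => (s', u)).card : ℝ) := by
          exact_mod_cast card_biUnion_le
      _ ≤ ∑ _s' ∈ univ.filter (fun s' => ∃ u ∈ L s, ∃ u' ∈ L s', R s u s' u'), D :=
          sum_le_sum fun s' _ => (Nat.cast_le.2 card_image_le).trans (hLc s')
      _ = ((univ.filter (fun s' => ∃ u ∈ L s, ∃ u' ∈ L s', R s u s' u')).card : ℝ) * D := by
          rw [sum_const, nsmul_eq_mul]
      _ ≤ _ := mul_le_mul_of_nonneg_right (hRc s) hD
  have h7 : ((@Finset.filter _ (fun k : (S × V) ⊕ Q => (s, j) ∈ QQ L R w m k) dec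
      univ).card : ℝ) ≤ ((((univ.filter fun s' => ∃ u ∈ L s, ∃ u' ∈ L s', R s u s' u').biUnion
        fun s' => (L s').image fun u => (s', u)).card +
        (univ.filter fun q => ∃ u ∈ L s, w q s u ≠ 0).card : ℕ) : ℝ) := Nat.cast_le.2 h5
  push_cast at h7
  have h10 := hws s
  linarith

theorem pr_EE (hM : 0 < M) (L : S → Finset V) (R : S → V → S → V → Prop) (w : Q → S → V → ℝ)
    (p : S → Fin M → V) (hp : ∀ s x, p s x ∈ L s)
    (havg : ∀ s, ∀ F : V → ℝ, (∑ x, F (p s x)) / M = (∑ u ∈ L s, F u) / (L s).card)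
    (hRw : ∀ s, ∀ u ∈ L s, ∑ s' with s' ≠ s,
        (((L s').filter fun u' => R s u s' u').card : ℝ) / (L s').card ≤ 1 / 128)
    {ω μ : Q → ℝ} (hω : ∀ q, 0 < ω q) (hw : ∀ q s, ∀ u ∈ L s, 0 ≤ w q s u ∧ w q s u ≤ ω q)
    (hμ : ∀ q, ∑ s, (∑ u ∈ L s, w q s u) / (L s).card ≤ μ q) {m1 Λ : ℝ} {m2 : Q → ℝ}
    (hm1 : 0 < m1) (hm1' : (m : ℝ) * (1 / 128) ≤ m1) (hm1L : 4 * Λ ≤ m1)
    (hm2 : ∀ q, 0 < m2 q) (hm2' : ∀ q, m * μ q ≤ m2 q) (hm2L : ∀ q, 4 * Λ * ω q ≤ m2 q)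
    (k : (S × V) ⊕ Q) {i : Fintype (S × Fin m → Fin M)} :
    @pr _ i (EE (m := m) L R w p m1 m2 k) ≤ Real.exp (-Λ) := by
  rcases k with z | q
  · by_cases hz : z.2 ∈ L z.1
    · have h4 := tailW (m := m) (i := i) hM L p hp havg (cw R z.1 z.2)
          (Nn L R z.1) (ω := 1) (μ := 1 / 128) (m0 := m1) one_pos (by
            intro s' u' _
            unfold cw
            split_ifs <;> norm_num) (by
            refine le_trans ?_ (hRw z.1 z.2 hz)
            have h5 : ∀ s' ∈ Nn L R z.1, (∑ u ∈ L s', cw R z.1 z.2 s' u) / (L s').card =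
                (((L s').filter fun u' => R z.1 z.2 s' u').card : ℝ) / (L s').card := by
              intro s' _
              unfold cw
              rw [← sum_filter, sum_const, nsmul_eq_mul, mul_one]
            rw [sum_congr rfl h5]
            refine sum_le_sum_of_subset_of_nonneg ?_ fun s' _ _ => by positivity
            intro s' hs'
            unfold Nn at hs'
            rw [mem_filter] at hs' ⊢
            exact ⟨mem_univ _, hs'.2.1⟩) hm1 hm1'
      refine (@pr_mono' _ i _ _ fun f hf => ?_).trans (h4.trans (Real.exp_le_exp.2 ?_))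
      · exact hf.2
      · linarith
    · rw [pr_false _ fun f hf => hz hf.1]
      exact (Real.exp_pos _).le
  · have h4 := tailW (m := m) (i := i) hM L p hp havg (w q)
        (Tn L w q) (ω := ω q) (μ := μ q) (m0 := m2 q) (hω q) (hw q) (by
          refine le_trans ?_ (hμ q)
          refine sum_le_sum_of_subset_of_nonneg (subset_univ _) fun s' _ _ => ?_
          exact div_nonneg (sum_nonneg fun u hu => (hw q s' u hu).1) (Nat.cast_nonneg _))
        (hm2 q) (hm2' q)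
    refine (@pr_mono' _ i _ _ fun f hf => ?_).trans (h4.trans (Real.exp_le_exp.2 ?_))
    · exact hf
    · rw [neg_le_neg_iff, le_div_iff₀ (by have := hω q; positivity)]
      have := hm2L q
      linarith

end events

/-- numbers -/
theorem nums {A d : ℝ} (hA : 1 ≤ A) (hd : 1000 ≤ d) :
    16 * Real.exp (-((3 * A + 2) * Real.log d)) * (d ^ A * d + 1) *
      (d ^ A * d ^ A + d ^ A + 1) ≤ 1 := by
  have hdp : 0 < d := by linarith
  have hd1 : 1 ≤ d := by linarith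
  have hexp : Real.exp (-((3 * A + 2) * Real.log d)) = d ^ (-(3 * A + 2)) := by
    rw [Real.rpow_def_of_pos hdp]
    congr 1
    ring
  have e0 : 1 ≤ d ^ A := Real.one_le_rpow hd1 (by linarith)
  have e1 : d ^ A * d + 1 ≤ 2 * (d ^ A * d) := by nlinarith
  have e2 : d ^ A * d ^ A + d ^ A + 1 ≤ 3 * (d ^ A * d ^ A) := by nlinarith
  have e3 : d ^ (-(3 * A + 2)) * (d ^ A * d) * (d ^ A * d ^ A) * d = 1 := by
    have h1 : d ^ A * d = d ^ (A + 1) := by rw [Real.rpow_add hdp, Real.rpow_one]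
    have h2 : d ^ A * d ^ A = d ^ (2 * A) := by
      rw [← Real.rpow_add hdp]
      congr 1
      ring
    have h3 : d ^ (-(3 * A + 2)) * d ^ (A + 1) * d ^ (2 * A) * d =
        d ^ (-(3 * A + 2)) * d ^ (A + 1) * d ^ (2 * A) * d ^ (1 : ℝ) := by rw [Real.rpow_one]
    rw [h1, h2, h3, ← Real.rpow_add hdp, ← Real.rpow_add hdp, ← Real.rpow_add hdp,
      show -(3 * A + 2) + (A + 1) + 2 * A + 1 = 0 by ring, Real.rpow_zero]
  have e4 : 0 < d ^ (-(3 * A + 2)) := Real.rpow_pos_of_pos hdp _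
  have e7 : d ^ (-(3 * A + 2)) * (d ^ A * d) * (d ^ A * d ^ A) ≤ 1 / 1000 := by
    rw [le_div_iff₀ (by norm_num)]
    calc d ^ (-(3 * A + 2)) * (d ^ A * d) * (d ^ A * d ^ A) * 1000
        ≤ d ^ (-(3 * A + 2)) * (d ^ A * d) * (d ^ A * d ^ A) * d :=
          mul_le_mul_of_nonneg_left hd (by positivity)
      _ = 1 := e3
  rw [hexp]
  calc 16 * d ^ (-(3 * A + 2)) * (d ^ A * d + 1) * (d ^ A * d ^ A + d ^ A + 1)
      ≤ 16 * d ^ (-(3 * A + 2)) * (2 * (d ^ A * d)) * (3 * (d ^ A * d ^ A)) := by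
        refine mul_le_mul (mul_le_mul_of_nonneg_left e1 (by positivity)) e2 (by positivity)
          (by positivity)
    _ = 96 * (d ^ (-(3 * A + 2)) * (d ^ A * d) * (d ^ A * d ^ A)) := by ring
    _ ≤ 1 := by linarith

/-- the lists -/
theorem lists (hSYM : Stmt_SYM.{u}) {V S Q : Type u} [Fintype V] [Fintype S] [Fintype Q]
    {Λ D : ℝ} {d k m : ℕ} {L : S → Finset V} {R : S → V → S → V → Prop} {w : Q → S → V → ℝ}
    {ω μ : Q → ℝ} (hne : ∀ s, (L s).Nonempty) (hD : 0 ≤ D) (hLc : ∀ s, ((L s).card : ℝ) ≤ D)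
    (hRs : ∀ s u s' u', R s u s' u' → R s' u' s u)
    (hRc : ∀ s, ((univ.filter fun s' => ∃ u ∈ L s, ∃ u' ∈ L s', R s u s' u').card : ℝ) ≤ D)
    (hRw : ∀ s, ∀ u ∈ L s, ∑ s' with s' ≠ s,
        (((L s').filter fun u' => R s u s' u').card : ℝ) / (L s').card ≤ 1 / 128)
    (hω : ∀ q, 0 < ω q) (hw : ∀ q s, ∀ u ∈ L s, 0 ≤ w q s u ∧ w q s u ≤ ω q)
    (hμ : ∀ q, ∑ s, (∑ u ∈ L s, w q s u) / (L s).card ≤ μ q)
    (hwq : ∀ q, ((univ.filter fun s => ∃ u ∈ L s, w q s u ≠ 0).card : ℝ) ≤ D)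
    (hws : ∀ s, ((univ.filter fun q => ∃ u ∈ L s, w q s u ≠ 0).card : ℝ) ≤ D)
    (hΛ : 0 < Λ) (hk : 20 * Λ ≤ k) (hm : m = 32 * k) (hmd : (m : ℝ) ≤ d)
    (hnum : 16 * Real.exp (-Λ) * (D * d + 1) * (D * D + D + 1) ≤ 1) :
    ∃ h : S → Fin m → V, (∀ s i, h s i ∈ L s) ∧
      (∀ s i, (univ.filter fun y : S × Fin m => y.1 ≠ s ∧ R s (h s i) y.1 (h y.1 y.2)).card ≤ k) ∧
      ∀ q, ∑ s, ∑ j, w q s (h s j) ≤ 2 * (m * μ q + 4 * Λ * ω q) := by
  have hmr : (m : ℝ) = 32 * k := by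
    rw [hm]
    push_cast
    ring
  obtain ⟨M, hMdef⟩ : ∃ M : ℕ, M = ∏ s, (L s).card := ⟨_, rfl⟩
  have hM : 0 < M := by
    rw [hMdef]
    exact prod_pos fun s _ => card_pos.2 (hne s)
  have hpk : ∀ s, ∃ p : Fin M → V, (∀ x, p x ∈ L s) ∧
      ∀ F : V → ℝ, (∑ x, F (p x)) / M = (∑ u ∈ L s, F u) / (L s).card := fun s =>
    pick_exists (L s) M (hne s) (by rw [hMdef]; exact dvd_prod_of_mem _ (mem_univ s)) hM
  choose p hp havg using hpk
  have hμ0 : ∀ q, 0 ≤ μ q := by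
    intro q
    refine le_trans (sum_nonneg fun s _ => div_nonneg (sum_nonneg fun u hu => ?_)
      (Nat.cast_nonneg _)) (hμ q)
    exact (hw q s u hu).1
  have hm20 : ∀ q, 0 < m * μ q + 4 * Λ * ω q := by
    intro q
    have h4 := hμ0 q
    have h5 := hω q
    positivity
  obtain ⟨f, hf⟩ := hSYM (S × Fin m) M ((S × V) ⊕ Q) (QQ L R w m)
    (EE L R w p (k / 4) fun q => m * μ q + 4 * Λ * ω q) (Real.exp (-Λ)) (D * d) (D * D + D) hM
    (by positivity) (by positivity) (dep_EE L R w p _ _) (size_QQ L R w hD hmd hRc hwq)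
    (fun y => mul_QQ L R w hD hRs hLc hRc hws y) (Real.exp_pos _).le
    (fun x => pr_EE hM L R w p hp havg hRw hω hw hμ (by linarith) (by rw [hmr]; linarith)
      (by linarith) hm20 (fun q => by have := mul_nonneg hΛ.le (hω q).le; linarith)
      (fun q => by have := mul_nonneg (Nat.cast_nonneg (α := ℝ) m) (hμ0 q); linarith) x) hnum
  refine ⟨fun s i => p s (f (s, i)), fun s i => hp _ _, fun s i => ?_, fun q => ?_⟩
  · have h4 := hf (Sum.inl (s, p s (f (s, i))))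
    have h5 : ¬ ((k : ℝ) / 4 + k / 4 ≤ ∑ y ∈ Nn L R s ×ˢ (univ : Finset (Fin m)),
        cw R s (p s (f (s, i))) y.1 (p y.1 (f y))) := fun h => h4 ⟨hp _ _, h⟩
    push Not at h5
    have h6 : (((univ.filter fun y : S × Fin m => y.1 ≠ s ∧
        R s (p s (f (s, i))) y.1 (p y.1 (f (y.1, y.2)))).card : ℕ) : ℝ) ≤
        ∑ y ∈ Nn L R s ×ˢ (univ : Finset (Fin m)),
        cw R s (p s (f (s, i))) y.1 (p y.1 (f y)) := by
      unfold cw
      rw [← sum_filter, sum_const, nsmul_eq_mul, mul_one]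
      refine Nat.cast_le.2 (card_le_card fun y hy => ?_)
      rw [mem_filter] at hy
      rw [mem_filter, mem_product]
      refine ⟨⟨?_, mem_univ _⟩, hy.2.2⟩
      unfold Nn
      rw [mem_filter]
      exact ⟨mem_univ _, hy.2.1, _, hp _ _, _, hp _ _, hy.2.2⟩
    have h7 : (((univ.filter fun y : S × Fin m => y.1 ≠ s ∧
        R s (p s (f (s, i))) y.1 (p y.1 (f (y.1, y.2)))).card : ℕ) : ℝ) ≤ k := by
      have : (0 : ℝ) ≤ k := Nat.cast_nonneg _
      linarith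
    exact_mod_cast h7
  · have h4 : ¬ ((m * μ q + 4 * Λ * ω q) + (m * μ q + 4 * Λ * ω q) ≤
        ∑ y ∈ Tn L w q ×ˢ (univ : Finset (Fin m)), w q y.1 (p y.1 (f y))) := hf (Sum.inr q)
    push Not at h4
    rw [sum_product] at h4
    have h6 : ∑ s, ∑ j : Fin m, w q s (p s (f (s, j))) =
        ∑ s ∈ Tn L w q, ∑ j : Fin m, w q s (p s (f (s, j))) := by
      symm
      refine sum_subset (subset_univ _) fun s _ hs => sum_eq_zero fun j _ => ?_
      by_contra h7
      exact hs (mem_filter.2 ⟨mem_univ _, _, hp _ _, h7⟩)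
    rw [h6]
    linarith

/-- **SLOTS.** -/
theorem slots (hSYM : Stmt_SYM.{u}) (hLLL : Stmt_LLLI.{u}) : Stmt_SLOTS.{u} := by
  intro A hA
  have hlog : Filter.Tendsto (fun d : ℕ => Real.log (d : ℝ)) Filter.atTop Filter.atTop :=
    Real.tendsto_log_atTop.comp tendsto_natCast_atTop_atTop
  have hsq : ∀ᶠ d : ℕ in Filter.atTop, Real.log (d : ℝ) ^ 2 ≤ d := by
    have h := ((Real.isLittleO_pow_log_id_atTop (n := 2)).comp_tendsto
      tendsto_natCast_atTop_atTop).bound (show (0 : ℝ) < 1 by norm_num)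
    filter_upwards [h] with d hd
    simp only [Function.comp, id, Real.norm_eq_abs, one_mul] at hd
    exact (le_abs_self _).trans (hd.trans_eq (abs_of_nonneg (Nat.cast_nonneg _)))
  obtain ⟨d0, hd0⟩ := Filter.eventually_atTop.1
    (((hlog.eventually_ge_atTop (2000 * (3 * A + 2))).and
      (tendsto_natCast_atTop_atTop.eventually_ge_atTop (1000 : ℝ))).and hsq)
  refine ⟨d0, ?_⟩
  intro V S Q _ _ _ d L R w ω μ hd hne hLc hRs hRc hRw hω hw hμ hwq hws
  obtain ⟨⟨h1, h2⟩, h3⟩ := hd0 d hd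
  have hnum := nums hA h2
  set ℓ : ℝ := Real.log (d : ℝ) with hℓ
  have hℓ1 : 10000 ≤ ℓ := by linarith
  have hℓ0 : 0 < ℓ := by linarith
  set Λ : ℝ := (3 * A + 2) * ℓ with hΛ
  have hΛ0 : 0 < Λ := by positivity
  have hΛ1 : 1 ≤ Λ := by nlinarith
  have hΛ2 : 2000 * Λ ≤ ℓ ^ 2 := by
    have := mul_le_mul_of_nonneg_right h1 hℓ0.le
    nlinarith
  obtain ⟨k, hk1, hk2⟩ : ∃ k : ℕ, 20 * Λ ≤ k ∧ (k : ℝ) ≤ 21 * Λ := by
    refine ⟨⌈20 * Λ⌉₊, Nat.le_ceil _, ?_⟩
    have h3 := (Nat.ceil_lt_add_one (show 0 ≤ 20 * Λ by positivity)).le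
    linarith
  obtain ⟨m, hm⟩ : ∃ m : ℕ, m = 32 * k := ⟨_, rfl⟩
  have hmr : (m : ℝ) = 32 * k := by
    rw [hm]
    push_cast
    ring
  have hm0 : 0 < m := by
    have : (0 : ℝ) < m := by linarith
    exact_mod_cast this
  have hml : 2 * (m : ℝ) ≤ ℓ ^ 2 := by linarith
  have hmd : (m : ℝ) ≤ d := by linarith
  have hμ0 : ∀ q, 0 ≤ μ q := by
    intro q
    refine le_trans (sum_nonneg fun s _ => div_nonneg (sum_nonneg fun u hu => ?_)
      (Nat.cast_nonneg _)) (hμ q)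
    exact (hw q s u hu).1
  obtain ⟨h, e1, e2, e3⟩ := lists hSYM hne (by positivity) hLc hRs hRc hRw hω hw hμ hwq hws hΛ0
    hk1 hm hmd hnum
  obtain ⟨g, hg⟩ := lst (fun s i s' j => R s (h s i) s' (h s' j)) hLLL (k := k) hm0 hm.ge
    (fun s i s' j h => hRs _ _ _ _ h) e2
  refine ⟨fun s => h s (g s), fun s => e1 _ _, hg, fun q => ?_⟩
  have h5 : ∑ s, w q s (h s (g s)) ≤ ∑ s, ∑ j : Fin m, w q s (h s j) :=
    sum_le_sum fun s _ => single_le_sum (f := fun j : Fin m => w q s (h s j))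
      (fun j _ => (hw q s _ (e1 _ _)).1) (mem_univ (g s))
  have h6 : 2 * (m * μ q + 4 * Λ * ω q) ≤ ℓ ^ 2 * (μ q + ω q) := by
    have h7 := mul_le_mul_of_nonneg_right hml (hμ0 q)
    have h8 := mul_le_mul_of_nonneg_right hΛ2 (hω q).le
    have h9 := mul_nonneg hΛ0.le (hω q).le
    linarith
  exact h5.trans ((e3 q).trans h6)

/-- **SLOTS.** -/
theorem stmt_SLOTS : Stmt_SLOTS.{u} :=
  slots (MP_db9399_ow.helper21.stmt_SYM MP_db9399_all.stmt_LLLI)
    MP_db9399_all.stmt_LLLI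

end Pool.Agent.Work.MP_db9399_slt.helper75
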